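import Mathlib

/-!
# Difference sets of finite sets of natural numbers: Sidon sets, generic sets
-/

set_option autoImplicit false
open Finset

namespace Pool.Agent.R666.Divot

/-- The difference set `S - S`, a set of integers. -/
def df (S : Finset ℕ) : Finset ℤ := (S ×ˢ S).image fun p => (p.1 : ℤ) - (p.2 : ℤ)

/-- The nonzero differences. -/
def off (S : Finset ℕ) : Finset ℤ := S.offDiag.image fun p => (p.1 : ℤ) - (p.2 : ℤ)

lemma mem_off {S : Finset ℕ} {v : ℤ} :
    v ∈ off S ↔ ∃ a ∈ S, ∃ b ∈ S, a ≠ b ∧ (a : ℤ) - b = v := by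
  unfold off
  simp only [mem_image, mem_offDiag, Prod.exists]
  constructor
  · rintro ⟨a, b, ⟨ha, hb, hab⟩, rfl⟩
    exact ⟨a, ha, b, hb, hab, rfl⟩
  · rintro ⟨a, ha, b, hb, hab, rfl⟩
    exact ⟨a, b, ⟨ha, hb, hab⟩, rfl⟩

lemma zero_notMem_off (S : Finset ℕ) : (0 : ℤ) ∉ off S := by
  rw [mem_off]
  rintro ⟨a, _, b, _, hab, h⟩
  exact hab (by omega)

lemma df_eq {S : Finset ℕ} (h : S.Nonempty) : df S = insert 0 (off S) := by
  ext v
  rw [mem_insert, mem_off]
  unfold df
  simp only [mem_image, mem_product, Prod.exists]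
  constructor
  · rintro ⟨a, b, ⟨ha, hb⟩, rfl⟩
    by_cases hab : a = b
    · left; subst hab; ring
    · right; exact ⟨a, ha, b, hb, hab, rfl⟩
  · rintro (rfl | ⟨a, ha, b, hb, hab, rfl⟩)
    · obtain ⟨a, ha⟩ := h
      exact ⟨a, a, ⟨ha, ha⟩, by ring⟩
    · exact ⟨a, b, ⟨ha, hb⟩, rfl⟩

lemma card_df {S : Finset ℕ} (h : S.Nonempty) : #(df S) = #(off S) + 1 := by
  rw [df_eq h, card_insert_of_notMem (zero_notMem_off S)]

lemma df_empty : df ∅ = ∅ := rfl

lemma card_offDiag' (S : Finset ℕ) : #S.offDiag = #S * (#S - 1) := by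
  rw [offDiag_card, Nat.mul_sub, mul_one]

lemma card_off_le (S : Finset ℕ) : #(off S) ≤ #S * (#S - 1) := by
  rw [← card_offDiag']
  exact card_image_le

lemma off_mono {A B : Finset ℕ} (h : A ⊆ B) : off A ⊆ off B := by
  intro v hv
  rw [mem_off] at hv ⊢
  obtain ⟨a, ha, b, hb, hab, e⟩ := hv
  exact ⟨a, h ha, b, h hb, hab, e⟩

lemma neg_mem_off {S : Finset ℕ} {v : ℤ} (h : v ∈ off S) : -v ∈ off S := by
  rw [mem_off] at h ⊢
  obtain ⟨a, ha, b, hb, hab, e⟩ := h
  exact ⟨b, hb, a, ha, hab.symm, by omega⟩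

lemma even_off (S : Finset ℕ) : Even #(off S) := by
  have h1 : off S = (off S).filter (fun v => 0 < v) ∪ (off S).filter (fun v => v < 0) := by
    ext v
    simp only [mem_union, mem_filter]
    constructor
    · intro h
      have : v ≠ 0 := fun e => zero_notMem_off S (e ▸ h)
      rcases lt_or_gt_of_ne this with h' | h'
      · exact Or.inr ⟨h, h'⟩
      · exact Or.inl ⟨h, h'⟩
    · rintro (h | h) <;> exact h.1
  have h2 : Disjoint ((off S).filter (fun v => 0 < v)) ((off S).filter (fun v => v < 0)) := by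
    rw [disjoint_left]
    intro v h h'
    have := (mem_filter.1 h).2
    have := (mem_filter.1 h').2
    omega
  have h3 : #((off S).filter (fun v => v < 0)) = #((off S).filter (fun v => 0 < v)) := by
    apply card_bij (fun v _ => -v)
    · intro v hv
      rw [mem_filter] at hv ⊢
      exact ⟨neg_mem_off hv.1, by omega⟩
    · intro a _ b _ h
      omega
    · intro v hv
      rw [mem_filter] at hv
      exact ⟨-v, mem_filter.2 ⟨neg_mem_off hv.1, by omega⟩, by omega⟩
  rw [h1, card_union_of_disjoint h2, h3]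
  exact ⟨_, rfl⟩

/-- Sidon sets. -/
def Sidon (B : Finset ℕ) : Prop :=
  ∀ a ∈ B, ∀ b ∈ B, ∀ c ∈ B, ∀ d ∈ B, a + b = c + d → a = c ∨ a = d

lemma sidon_card {B : Finset ℕ} (h : Sidon B) : #(off B) = #B * (#B - 1) := by
  rw [← card_offDiag']
  apply card_image_of_injOn
  rintro ⟨a, b⟩ h1 ⟨c, d⟩ h2 e
  simp only [coe_offDiag, Set.mem_offDiag, mem_coe] at h1 h2
  simp only at e
  have e' : a + d = c + b := by omega
  rcases h a h1.1 d h2.2.1 c h2.1 b h1.2.1 e' with h3 | h3
  · subst h3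
    have : b = d := by omega
    rw [this]
  · exact absurd h3 h1.2.2

/-- Sets without nontrivial linear relations with coefficients of absolute value at most 10. -/
def Gen (B : Finset ℕ) : Prop :=
  ∀ c : ℕ → ℤ, (∀ b, |c b| ≤ 10) → ∑ b ∈ B, c b * (b : ℤ) = 0 → ∀ b ∈ B, c b = 0

/-- indicator -/
def dl (a x : ℕ) : ℤ := if x = a then 1 else 0

lemma sum_dl {B : Finset ℕ} {a : ℕ} (h : a ∈ B) : ∑ x ∈ B, dl a x * (x : ℤ) = a := by
  unfold dl
  simp [h]

lemma dl_self (a : ℕ) : dl a a = 1 := by simp [dl]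

lemma dl_ne {a x : ℕ} (h : x ≠ a) : dl a x = 0 := by simp [dl, h]

lemma dl_cases (a x : ℕ) : dl a x = 0 ∧ x ≠ a ∨ dl a x = 1 ∧ x = a := by
  unfold dl
  by_cases h : x = a
  · right; simp [h]
  · left; simp [h]

lemma gen_sidon {B : Finset ℕ} (h : Gen B) : Sidon B := by
  intro a ha b hb c hc d hd e
  by_contra hne
  push Not at hne
  have h1 := h (fun x => dl a x + dl b x - dl c x - dl d x) (fun x => by
    rcases dl_cases a x with h1 | h1 <;> rcases dl_cases b x with h2 | h2 <;>
    rcases dl_cases c x with h3 | h3 <;> rcases dl_cases d x with h4 | h4 <;>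
    (simp only [h1.1, h2.1, h3.1, h4.1]; norm_num)) (by
    simp only [add_mul, sub_mul, sum_add_distrib, sum_sub_distrib, sum_dl ha, sum_dl hb,
      sum_dl hc, sum_dl hd]
    omega) a ha
  simp only [dl_self, dl_ne hne.1, dl_ne hne.2] at h1
  rcases dl_cases b a with h2 | h2 <;> omega

/-- A quadruple of four different elements with `u + z = v + w` costs four differences. -/
lemma quad {S : Finset ℕ} {u v w z : ℕ} (hu : u ∈ S) (hv : v ∈ S) (hw : w ∈ S) (hz : z ∈ S)
    (h : u + z = v + w) (huv : u ≠ v) (huw : u ≠ w) (hvw : v ≠ w) (huz : u ≠ z) :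
    #(off S) + 4 ≤ #S * (#S - 1) := by
  have hvz : v ≠ z := by omega
  have hwz : w ≠ z := by omega
  set P : Finset (ℕ × ℕ) := {(w, z), (z, w), (v, z), (z, v)} with hP
  have hPc : #P = 4 := by
    rw [hP]
    rw [card_insert_of_notMem, card_insert_of_notMem, card_insert_of_notMem, card_singleton]
    · simp only [mem_singleton, Prod.mk.injEq, not_and]
      omega
    · simp only [mem_insert, mem_singleton, Prod.mk.injEq]
      omega
    · simp only [mem_insert, mem_singleton, Prod.mk.injEq]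
      omega
  have hPS : P ⊆ S.offDiag := by
    intro p hp
    simp only [hP, mem_insert, mem_singleton] at hp
    rw [mem_offDiag]
    rcases hp with rfl | rfl | rfl | rfl
    · exact ⟨hw, hz, hwz⟩
    · exact ⟨hz, hw, hwz.symm⟩
    · exact ⟨hv, hz, hvz⟩
    · exact ⟨hz, hv, hvz.symm⟩
  have key : off S ⊆ (S.offDiag \ P).image fun p => (p.1 : ℤ) - (p.2 : ℤ) := by
    intro x hx
    rw [mem_off] at hx
    obtain ⟨a, ha, b, hb, hab, e⟩ := hx
    rw [mem_image]
    by_cases hmem : (a, b) ∈ P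
    · simp only [hP, mem_insert, mem_singleton, Prod.mk.injEq] at hmem
      rcases hmem with ⟨rfl, rfl⟩ | ⟨rfl, rfl⟩ | ⟨rfl, rfl⟩ | ⟨rfl, rfl⟩
      · refine ⟨(u, v), ?_, by simp only; omega⟩
        simp only [hP, mem_sdiff, mem_offDiag, mem_insert, mem_singleton, Prod.mk.injEq]
        refine ⟨⟨hu, hv, huv⟩, by omega⟩
      · refine ⟨(v, u), ?_, by simp only; omega⟩
        simp only [hP, mem_sdiff, mem_offDiag, mem_insert, mem_singleton, Prod.mk.injEq]
        refine ⟨⟨hv, hu, huv.symm⟩, by omega⟩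
      · refine ⟨(u, w), ?_, by simp only; omega⟩
        simp only [hP, mem_sdiff, mem_offDiag, mem_insert, mem_singleton, Prod.mk.injEq]
        refine ⟨⟨hu, hw, huw⟩, by omega⟩
      · refine ⟨(w, u), ?_, by simp only; omega⟩
        simp only [hP, mem_sdiff, mem_offDiag, mem_insert, mem_singleton, Prod.mk.injEq]
        refine ⟨⟨hw, hu, huw.symm⟩, by omega⟩
    · exact ⟨(a, b), mem_sdiff.2 ⟨mem_offDiag.2 ⟨ha, hb, hab⟩, hmem⟩, e⟩
  have h1 : #(off S) ≤ #(S.offDiag \ P) := (card_le_card key).trans card_image_le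
  have h2 := card_sdiff_add_card_eq_card hPS
  rw [card_offDiag', hPc] at h2
  omega

/-- A set with `s` elements and `s (s-1) - 2` nonzero differences contains an arithmetic
progression of length three. -/
lemma exists_ap {S : Finset ℕ} (h : #(off S) + 2 = #S * (#S - 1)) :
    ∃ x d, 0 < d ∧ x ∈ S ∧ x + d ∈ S ∧ x + 2 * d ∈ S := by
  have hns : ¬ Sidon S := by
    intro hs
    have := sidon_card hs
    omega
  unfold Sidon at hns
  push Not at hns
  obtain ⟨a, ha, b, hb, c, hc, d, hd, e, hac, had⟩ := hns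
  have ap : ∀ p q r : ℕ, p ∈ S → q ∈ S → r ∈ S → p + r = q + q → p ≠ q →
      ∃ x d, 0 < d ∧ x ∈ S ∧ x + d ∈ S ∧ x + 2 * d ∈ S := by
    intro p q r hp hq hr h1 h2
    rcases lt_or_gt_of_ne h2 with h3 | h3
    · refine ⟨p, q - p, by omega, hp, ?_, ?_⟩
      · rw [show p + (q - p) = q by omega]; exact hq
      · rw [show p + 2 * (q - p) = r by omega]; exact hr
    · refine ⟨r, q - r, by omega, hr, ?_, ?_⟩
      · rw [show r + (q - r) = q by omega]; exact hq
      · rw [show r + 2 * (q - r) = p by omega]; exact hp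
  by_cases hcd : c = d
  · subst hcd
    exact ap a c b ha hc hb e hac
  · by_cases hab : a = b
    · subst hab
      exact ap c a d hc ha hd e.symm (Ne.symm hac)
    · have := quad ha hc hd hb e hac had hcd hab
      omega

end Pool.Agent.R666.Divot
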