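import Pool.Agent.R666.Divot.Count

/-!
# Generic sets with the fourth vertex of a parallelogram
-/

set_option autoImplicit false
open Finset
open scoped Classical

namespace Pool.Agent.R666.Divot

lemma par_notMem {T : Finset ℕ} (hT : Gen T) {x y z : ℕ} (hx : x ∈ T) (hy : y ∈ T) (hz : z ∈ T)
    (hxy : x < y) (hyz : y < z) : y + z - x ∉ T := by
  intro hw
  rcases gen_sidon hT x hx (y + z - x) hw y hy z hz (by omega) with h | h <;> omega

/-- The difference `w - t` is new for `t ≠ y, z`. -/
lemma par_new {T : Finset ℕ} (hT : Gen T) {x y z : ℕ} (hx : x ∈ T) (hy : y ∈ T) (hz : z ∈ T)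
    (hxy : x < y) (hyz : y < z) {t p q : ℕ} (ht : t ∈ T) (hty : t ≠ y) (htz : t ≠ z)
    (hp : p ∈ T) (hq : q ∈ T) (e : ((y + z - x : ℕ) : ℤ) - t = p - q) : False := by
  have key := hT (fun u => dl y u + dl z u + dl q u - dl x u - dl t u - dl p u) (fun u => by
    rw [abs_le]
    rcases dl_cases y u with h1 | h1 <;> rcases dl_cases z u with h2 | h2 <;>
    rcases dl_cases q u with h3 | h3 <;> rcases dl_cases x u with h4 | h4 <;>
    rcases dl_cases t u with h5 | h5 <;> rcases dl_cases p u with h6 | h6 <;>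
    (simp only [h1.1, h2.1, h3.1, h4.1, h5.1, h6.1]; norm_num)) (by
    simp only [add_mul, sub_mul, sum_add_distrib, sum_sub_distrib, sum_dl hx, sum_dl hy,
      sum_dl hz, sum_dl ht, sum_dl hp, sum_dl hq]
    omega)
  have h1 := key t ht
  simp only [dl_self, dl_ne hty, dl_ne htz] at h1
  have h2 := key x hx
  simp only [dl_self, dl_ne hxy.ne, dl_ne (hxy.trans hyz).ne] at h2
  rcases dl_cases q t with a1 | a1
  · rcases dl_cases x t with a2 | a2 <;> rcases dl_cases p t with a3 | a3 <;> omega
  · rcases dl_cases q x with b1 | b1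
    · rcases dl_cases t x with b2 | b2 <;> rcases dl_cases p x with b3 | b3 <;> omega
    · have e1 : x = t := by rw [b1.2, a1.2]
      rw [e1] at h1
      rw [dl_self] at h1
      rcases dl_cases p t with a3 | a3 <;> omega

lemma par_new2 {T : Finset ℕ} (hT : Gen T) {x y z : ℕ} (hx : x ∈ T) (hy : y ∈ T) (hz : z ∈ T)
    (hxy : x < y) (hyz : y < z) {t p : ℕ} (ht : t ∈ T)
    (hp : p ∈ T) (e : ((y + z - x : ℕ) : ℤ) - t = p - (y + z - x : ℕ)) : False := by
  have key := hT (fun u => 2 * dl y u + 2 * dl z u - 2 * dl x u - dl t u - dl p u) (fun u => by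
    rw [abs_le]
    rcases dl_cases y u with h1 | h1 <;> rcases dl_cases z u with h2 | h2 <;>
    rcases dl_cases x u with h4 | h4 <;>
    rcases dl_cases t u with h5 | h5 <;> rcases dl_cases p u with h6 | h6 <;>
    (simp only [h1.1, h2.1, h4.1, h5.1, h6.1]; norm_num)) (by
    simp only [add_mul, sub_mul, sum_add_distrib, sum_sub_distrib, mul_assoc, ← mul_sum,
      sum_dl hx, sum_dl hy, sum_dl hz, sum_dl ht, sum_dl hp]
    omega) x hx
  simp only [dl_self, dl_ne hxy.ne, dl_ne (hxy.trans hyz).ne] at key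
  rcases dl_cases t x with a2 | a2 <;> rcases dl_cases p x with a3 | a3 <;> omega

/-- The number of differences. -/
lemma par_card {T : Finset ℕ} (hT : Gen T) {x y z : ℕ} (hx : x ∈ T) (hy : y ∈ T) (hz : z ∈ T)
    (hxy : x < y) (hyz : y < z) :
    #(off (insert (y + z - x) T)) + 4 = (#T + 1) * #T := by
  set w := y + z - x with hw
  have hwT : w ∉ T := par_notMem hT hx hy hz hxy hyz
  have hcard : #(insert w T) = #T + 1 := card_insert_of_notMem hwT
  apply le_antisymm
  · have := quad (S := insert w T) (u := x) (v := y) (w := z) (z := w)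
      (mem_insert_of_mem hx) (mem_insert_of_mem hy) (mem_insert_of_mem hz) (mem_insert_self _ _)
      (by omega) (by omega) (by omega) (by omega) (by omega)
    rw [hcard] at this
    exact this
  · set C : Finset ℕ := (T.erase y).erase z with hC
    have hCc : #C + 2 = #T := by
      rw [hC, card_erase_of_mem (mem_erase.2 ⟨by omega, hz⟩), card_erase_of_mem hy]
      have : 1 < #T := one_lt_card.2 ⟨y, hy, z, hz, by omega⟩
      omega
    have hCm : ∀ c ∈ C, c ∈ T ∧ c ≠ y ∧ c ≠ z := by
      intro c hc
      simp only [hC, mem_erase] at hc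
      exact ⟨hc.2.2, hc.2.1, hc.1⟩
    set X1 : Finset ℤ := C.image fun c : ℕ => (w : ℤ) - (c : ℤ) with hX1
    set X2 : Finset ℤ := C.image fun c : ℕ => (c : ℤ) - (w : ℤ) with hX2
    have cX1 : #X1 = #C := by
      rw [hX1]
      apply card_image_of_injOn
      intro a _ b _ h
      have h' : (w : ℤ) - a = w - b := h
      omega
    have cX2 : #X2 = #C := by
      rw [hX2]
      apply card_image_of_injOn
      intro a _ b _ h
      have h' : (a : ℤ) - w = b - w := h
      omega
    have hsub : off T ∪ (X1 ∪ X2) ⊆ off (insert w T) := by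
      refine union_subset (off_mono (subset_insert _ _)) (union_subset ?_ ?_)
      · intro v hv
        obtain ⟨c, hc, rfl⟩ := mem_image.1 hv
        exact mem_off.2 ⟨w, mem_insert_self _ _, c, mem_insert_of_mem (hCm c hc).1,
          fun h => hwT (h ▸ (hCm c hc).1), rfl⟩
      · intro v hv
        obtain ⟨c, hc, rfl⟩ := mem_image.1 hv
        exact mem_off.2 ⟨c, mem_insert_of_mem (hCm c hc).1, w, mem_insert_self _ _,
          fun h => hwT (h ▸ (hCm c hc).1), rfl⟩
    have d2 : Disjoint X1 X2 := by
      rw [disjoint_left]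
      intro v h1 h2
      obtain ⟨c, hc, rfl⟩ := mem_image.1 h1
      obtain ⟨c', hc', e⟩ := mem_image.1 h2
      exact par_new2 hT hx hy hz hxy hyz (hCm c hc).1 (hCm c' hc').1 e.symm
    have d1 : Disjoint (off T) (X1 ∪ X2) := by
      rw [disjoint_left]
      intro v h1 h2
      obtain ⟨p, hp, q, hq, _, e⟩ := mem_off.1 h1
      rcases mem_union.1 h2 with h2 | h2
      · obtain ⟨c, hc, e'⟩ := mem_image.1 h2
        exact par_new hT hx hy hz hxy hyz (hCm c hc).1 (hCm c hc).2.1 (hCm c hc).2.2 hp hq
          (by omega)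
      · obtain ⟨c, hc, e'⟩ := mem_image.1 h2
        exact par_new hT hx hy hz hxy hyz (hCm c hc).1 (hCm c hc).2.1 (hCm c hc).2.2 hq hp
          (by omega)
    have h3 := card_le_card hsub
    rw [card_union_of_disjoint d1, card_union_of_disjoint d2, cX1, cX2,
      sidon_card (gen_sidon hT)] at h3
    obtain ⟨j, hj⟩ : ∃ j, #T = j + 2 := ⟨#C, hCc.symm⟩
    have hj' : #C = j := by omega
    rw [hj, hj'] at h3
    rw [hj]
    have e1 : j + 2 - 1 = j + 1 := by omega
    rw [e1] at h3
    nlinarith

/-- The parallelogram is determined by the set. -/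
lemma par_inj {T T' : Finset ℕ} (hT : Gen T) (hT' : Gen T') {x y z x' y' z' : ℕ}
    (hx : x ∈ T) (hy : y ∈ T) (hz : z ∈ T) (hxy : x < y) (hyz : y < z)
    (hx' : x' ∈ T') (hy' : y' ∈ T') (hz' : z' ∈ T') (hxy' : x' < y') (hyz' : y' < z')
    (h : insert (y + z - x) T = insert (y' + z' - x') T') :
    x = x' ∧ y = y' ∧ z = z' ∧ T = T' := by
  have step : ∀ {T T' : Finset ℕ}, Gen T → ∀ {x y z x' y' z' : ℕ}, x < y → y < z →
      x' ∈ T' → y' ∈ T' → z' ∈ T' → x' < y' → y' < z' →
      insert (y + z - x) T = insert (y' + z' - x') T' → y + z - x ≠ y' + z' - x' →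
      y + z - x < y' + z' - x' := by
    intro T T' hT x y z x' y' z' hxy hyz hx' hy' hz' hxy' hyz' h hne
    have m : ∀ u ∈ T', u ≠ y + z - x → u ∈ T := by
      intro u hu h1
      have : u ∈ insert (y + z - x) T := by rw [h]; exact mem_insert_of_mem hu
      exact (mem_insert.1 this).resolve_left h1
    have mw : y' + z' - x' ∈ T := by
      have : y' + z' - x' ∈ insert (y + z - x) T := by rw [h]; exact mem_insert_self _ _
      exact (mem_insert.1 this).resolve_left (Ne.symm hne)
    by_contra hlt
    have hxT := m x' hx' (by omega)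
    have hyT := m y' hy' (by omega)
    have hzT := m z' hz' (by omega)
    rcases gen_sidon hT x' hxT _ mw y' hyT z' hzT (by omega) with h | h <;> omega
  have hw : y + z - x = y' + z' - x' := by
    by_contra hne
    have h1 := step hT hxy hyz hx' hy' hz' hxy' hyz' h hne
    have h2 := step hT' hxy' hyz' hx hy hz hxy hyz h.symm (Ne.symm hne)
    omega
  have hwT : y + z - x ∉ T := par_notMem hT hx hy hz hxy hyz
  have hwT' : y' + z' - x' ∉ T' := par_notMem hT' hx' hy' hz' hxy' hyz'
  have hTT : T = T' := by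
    have h1 := congrArg (fun s => s.erase (y + z - x)) h
    rw [erase_insert hwT, hw, erase_insert hwT'] at h1
    exact h1
  subst hTT
  have key := hT (fun u => dl y u + dl z u + dl x' u - dl y' u - dl z' u - dl x u) (fun u => by
    rw [abs_le]
    rcases dl_cases y u with h1 | h1 <;> rcases dl_cases z u with h2 | h2 <;>
    rcases dl_cases x' u with h3 | h3 <;> rcases dl_cases y' u with h4 | h4 <;>
    rcases dl_cases z' u with h5 | h5 <;> rcases dl_cases x u with h6 | h6 <;>
    (simp only [h1.1, h2.1, h3.1, h4.1, h5.1, h6.1]; norm_num)) (by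
    simp only [add_mul, sub_mul, sum_add_distrib, sum_sub_distrib, sum_dl hx, sum_dl hy,
      sum_dl hz, sum_dl hx', sum_dl hy', sum_dl hz']
    omega) x' hx'
  simp only [dl_self, dl_ne hxy'.ne, dl_ne (hxy'.trans hyz').ne] at key
  have hxx : x = x' := by
    rcases dl_cases x x' with a | a
    · rcases dl_cases y x' with a1 | a1 <;> rcases dl_cases z x' with a2 | a2 <;> omega
    · exact a.2.symm
  subst hxx
  rcases gen_sidon hT y hy z hz y' hy' z' hz' (by omega) with h1 | h1
  · exact ⟨rfl, h1, by omega, rfl⟩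
  · omega

end Pool.Agent.R666.Divot
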