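import Pool.Agent.R666.Divot.Large
import Pool.Agent.R666.Divot.Par

/-!
# Bounds for the numbers of sets with a given number of differences
-/

set_option autoImplicit false
open Finset
open scoped Classical

namespace Pool.Agent.R666.Divot

/-- The number of subsets of `[n]` with `m` differences. -/
noncomputable def N (n m : ℕ) : ℕ := #{S ∈ (range n).powerset | #(df S) = m}

lemma card_df_iff {S : Finset ℕ} {m : ℕ} (hm : 2 ≤ m) : #(df S) = m ↔ #(off S) + 1 = m := by
  rcases S.eq_empty_or_nonempty with rfl | h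
  · have h1 : #(df ∅) = 0 := by rw [df_empty]; rfl
    have h2 : #(off ∅) = 0 := rfl
    rw [h1, h2]
    omega
  · rw [card_df h]

lemma N_eq (n : ℕ) {m : ℕ} (hm : 2 ≤ m) :
    N n m = #{S ∈ (range n).powerset | #(off S) + 1 = m} := by
  unfold N
  congr 1
  apply filter_congr
  intro S _
  exact card_df_iff hm

lemma N_even (n : ℕ) {m : ℕ} (hm : 2 ≤ m) (he : Even m) : N n m = 0 := by
  rw [N_eq n hm, card_eq_zero, filter_eq_empty_iff]
  intro S _ h
  have := even_off S
  obtain ⟨a, ha⟩ := this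
  obtain ⟨b, hb⟩ := he
  omega

/-- upper bound constant -/
def E1 (k : ℕ) : ℕ := 2 ^ ((k + 3) + ((k + 3) ^ 3 + (k + 3) ^ 2)) * (k + 3 + 21 ^ (k + 3))

lemma upper (n k : ℕ) (hk : 10 ≤ k) (hn : 1 ≤ n) :
    #{S ∈ (range n).powerset | #(off S) + 2 = (k + 4) * (k + 3)} ≤
      n ^ 2 * n.choose (k + 1) + E1 k * n ^ (k + 2) := by
  set AP : Finset (Finset ℕ) := (range n ×ˢ range n ×ˢ (range n).powersetCard (k + 1)).image
    fun p => {p.1, p.1 + p.2.1, p.1 + 2 * p.2.1} ∪ p.2.2 with hAP
  set LG : Finset (Finset ℕ) := (Deg n (k + 2)).biUnion fun B => (B ∪ FF B).powerset with hLG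
  have hAPc : #AP ≤ n ^ 2 * n.choose (k + 1) := by
    rw [hAP]
    refine card_image_le.trans ?_
    rw [card_product, card_product, card_powersetCard, card_range]
    exact le_of_eq (by ring)
  have hLGc : #LG ≤ E1 k * n ^ (k + 2) := by
    rw [hLG]
    refine card_biUnion_le.trans ?_
    calc ∑ B ∈ Deg n (k + 2), #(B ∪ FF B).powerset
        ≤ ∑ B ∈ Deg n (k + 2), 2 ^ ((k + 3) + ((k + 3) ^ 3 + (k + 3) ^ 2)) := by
          refine sum_le_sum fun B hB => ?_
          rw [card_powerset]
          have h1 := (mem_Deg.1 hB).2.1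
          refine Nat.pow_le_pow_right (by norm_num) ?_
          refine (card_union_le _ _).trans (add_le_add h1 ((card_FF B).trans (add_le_add ?_ ?_)))
          · exact Nat.pow_le_pow_left h1 3
          · exact Nat.pow_le_pow_left h1 2
      _ = #(Deg n (k + 2)) * 2 ^ ((k + 3) + ((k + 3) ^ 3 + (k + 3) ^ 2)) := by
          rw [sum_const, smul_eq_mul]
      _ ≤ ((k + 2 + 1 + 21 ^ (k + 2 + 1)) * n ^ (k + 2)) *
            2 ^ ((k + 3) + ((k + 3) ^ 3 + (k + 3) ^ 2)) :=
          Nat.mul_le_mul_right _ (card_Deg n (k + 2) hn)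
      _ = E1 k * n ^ (k + 2) := by unfold E1; ring
  refine (card_le_card (t := AP ∪ LG) ?_).trans ((card_union_le _ _).trans
    (add_le_add hAPc hLGc))
  intro S hS
  rw [mem_filter, mem_powerset] at hS
  obtain ⟨hSn, hS2⟩ := hS
  rw [mem_union]
  rcases lt_trichotomy #S (k + 4) with h | h | h
  · exfalso
    have h1 := card_off_le S
    have h2 : #S * (#S - 1) ≤ (k + 3) * (k + 2) := Nat.mul_le_mul (by omega) (by omega)
    nlinarith
  · left
    obtain ⟨x, d, hd, hx, hxd, hx2⟩ := exists_ap (S := S) (by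
      rw [h, hS2, show k + 4 - 1 = k + 3 by omega])
    rw [hAP, mem_image]
    have hsub : ({x, x + d, x + 2 * d} : Finset ℕ) ⊆ S := by
      intro t ht
      simp only [mem_insert, mem_singleton] at ht
      rcases ht with rfl | rfl | rfl <;> assumption
    have hc3 : #({x, x + d, x + 2 * d} : Finset ℕ) = 3 := by
      rw [card_insert_of_notMem, card_insert_of_notMem, card_singleton]
      · simp only [mem_singleton]; omega
      · simp only [mem_insert, mem_singleton]; omega
    refine ⟨(x, d, S \ {x, x + d, x + 2 * d}), ?_, ?_⟩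
    · simp only [mem_product, mem_powersetCard, mem_range]
      have h1 := mem_range.1 (hSn hx)
      have h2 := mem_range.1 (hSn hxd)
      refine ⟨h1, by omega, sdiff_subset.trans hSn, ?_⟩
      have := card_sdiff_add_card_eq_card hsub
      omega
    · simp only
      exact union_sdiff_of_subset hsub
  · right
    obtain ⟨B, hB, hBS⟩ := large hk hSn (by omega) hS2
    rw [hLG, mem_biUnion]
    exact ⟨B, hB, mem_powerset.2 hBS⟩

/-- lower bound constant -/
def E2 (k : ℕ) : ℕ := (k + 3) ^ 3 * 2 ^ (k + 3) * (k + 3 + 21 ^ (k + 3))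

lemma lower (n k q : ℕ) (hq : 6 * q ≤ n) (hn : 1 ≤ n) :
    q ^ 3 * n.choose k ≤
      #{S ∈ (range n).powerset | #(off S) + 4 = (k + 4) * (k + 3)} + E2 k * n ^ (k + 2) := by
  set U : Finset (ℕ × ℕ × ℕ × Finset ℕ) :=
    Ico 0 q ×ˢ Ico q (2 * q) ×ˢ Ico (2 * q) (3 * q) ×ˢ (range n).powersetCard k with hU
  have hUc : #U = q ^ 3 * n.choose k := by
    rw [hU, card_product, card_product, card_product, card_powersetCard, card_range,
      Nat.card_Ico, Nat.card_Ico, Nat.card_Ico]
    have e1 : q - 0 = q := by omega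
    have e2 : 2 * q - q = q := by omega
    have e3 : 3 * q - 2 * q = q := by omega
    rw [e1, e2, e3]
    ring
  have hmem : ∀ p ∈ U, p.1 < p.2.1 ∧ p.2.1 < p.2.2.1 ∧ p.2.2.1 < 3 * q ∧
      p.2.2.2 ⊆ range n ∧ #p.2.2.2 = k := by
    intro p hp
    simp only [hU, mem_product, mem_Ico, mem_powersetCard] at hp
    exact ⟨by omega, by omega, by omega, hp.2.2.2.1, hp.2.2.2.2⟩
  let TT : ℕ × ℕ × ℕ × Finset ℕ → Finset ℕ := fun p => {p.1, p.2.1, p.2.2.1} ∪ p.2.2.2
  set G : Finset (ℕ × ℕ × ℕ × Finset ℕ) := U.filter fun p => #(TT p) = k + 3 ∧ Gen (TT p)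
    with hG
  set Bd : Finset (ℕ × ℕ × ℕ × Finset ℕ) := U.filter fun p => ¬ (#(TT p) = k + 3 ∧ Gen (TT p))
    with hBd
  have hsplit : #U = #G + #Bd := (card_filter_add_card_filter_not _).symm
  have hTTn : ∀ p ∈ U, TT p ⊆ range n := by
    intro p hp t ht
    have h1 := hmem p hp
    simp only [TT, mem_union, mem_insert, mem_singleton] at ht
    rcases ht with (h | h | h) | h
    · rw [mem_range]; omega
    · rw [mem_range]; omega
    · rw [mem_range]; omega
    · exact h1.2.2.2.1 h
  have hTTc : ∀ p ∈ U, #(TT p) ≤ k + 3 := by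
    intro p hp
    have h1 := (hmem p hp).2.2.2.2
    have h2 := card_union_le ({p.1, p.2.1, p.2.2.1} : Finset ℕ) p.2.2.2
    have h3 : #({p.1, p.2.1, p.2.2.1} : Finset ℕ) ≤ 3 := card_le_three
    simp only [TT]
    omega
  -- the bad ones
  have hBdc : #Bd ≤ E2 k * n ^ (k + 2) := by
    have hsub : Bd ⊆ (Deg n (k + 2)).biUnion fun T => T ×ˢ T ×ˢ T ×ˢ T.powerset := by
      intro p hp
      rw [hBd, mem_filter] at hp
      rw [mem_biUnion]
      refine ⟨TT p, mem_Deg.2 ⟨hTTn p hp.1, hTTc p hp.1, fun h1 h2 => hp.2 ⟨h1, h2⟩⟩, ?_⟩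
      simp only [mem_product, mem_powerset, TT]
      refine ⟨?_, ?_, ?_, subset_union_right⟩ <;> simp
    refine (card_le_card hsub).trans (card_biUnion_le.trans ?_)
    calc ∑ T ∈ Deg n (k + 2), #(T ×ˢ T ×ˢ T ×ˢ T.powerset)
        ≤ ∑ T ∈ Deg n (k + 2), (k + 3) ^ 3 * 2 ^ (k + 3) := by
          refine sum_le_sum fun T hT => ?_
          rw [card_product, card_product, card_product, card_powerset]
          have h1 := (mem_Deg.1 hT).2.1
          have h1' : #T ≤ k + 3 := h1
          calc #T * (#T * (#T * 2 ^ #T)) = #T ^ 3 * 2 ^ #T := by ring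
            _ ≤ (k + 3) ^ 3 * 2 ^ (k + 3) :=
              Nat.mul_le_mul (Nat.pow_le_pow_left h1' 3) (Nat.pow_le_pow_right (by norm_num) h1')
      _ = #(Deg n (k + 2)) * ((k + 3) ^ 3 * 2 ^ (k + 3)) := by rw [sum_const, smul_eq_mul]
      _ ≤ ((k + 2 + 1 + 21 ^ (k + 2 + 1)) * n ^ (k + 2)) * ((k + 3) ^ 3 * 2 ^ (k + 3)) :=
          Nat.mul_le_mul_right _ (card_Deg n (k + 2) hn)
      _ = E2 k * n ^ (k + 2) := by unfold E2; ring
  -- the good ones
  have hGc : #G ≤ #{S ∈ (range n).powerset | #(off S) + 4 = (k + 4) * (k + 3)} := by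
    apply card_le_card_of_injOn (fun p => insert (p.2.1 + p.2.2.1 - p.1) (TT p))
    · intro p hp
      rw [mem_coe, hG, mem_filter] at hp
      rw [mem_coe, mem_filter, mem_powerset]
      have h1 := hmem p hp.1
      refine ⟨insert_subset (mem_range.2 (by omega)) (hTTn p hp.1), ?_⟩
      have h2 := par_card hp.2.2 (x := p.1) (y := p.2.1) (z := p.2.2.1)
        (by simp [TT]) (by simp [TT]) (by simp [TT]) h1.1 h1.2.1
      rw [hp.2.1] at h2
      exact h2
    · intro p hp p' hp' h
      rw [mem_coe, hG, mem_filter] at hp hp'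
      have h1 := hmem p hp.1
      have h1' := hmem p' hp'.1
      obtain ⟨e1, e2, e3, e4⟩ := par_inj hp.2.2 hp'.2.2 (x := p.1) (y := p.2.1) (z := p.2.2.1)
        (x' := p'.1) (y' := p'.2.1) (z' := p'.2.2.1)
        (by simp [TT]) (by simp [TT]) (by simp [TT]) h1.1 h1.2.1
        (by simp [TT]) (by simp [TT]) (by simp [TT]) h1'.1 h1'.2.1 h
      have hR : ∀ p ∈ U, #(TT p) = k + 3 → p.2.2.2 = TT p \ {p.1, p.2.1, p.2.2.1} := by
        intro p hp hc
        have h1 := hmem p hp
        have h3 : #({p.1, p.2.1, p.2.2.1} : Finset ℕ) ≤ 3 := card_le_three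
        have h4 := card_union_add_card_inter ({p.1, p.2.1, p.2.2.1} : Finset ℕ) p.2.2.2
        have h5 : #(TT p) = #(({p.1, p.2.1, p.2.2.1} : Finset ℕ) ∪ p.2.2.2) := rfl
        have h6 : #(({p.1, p.2.1, p.2.2.1} : Finset ℕ) ∩ p.2.2.2) = 0 := by omega
        have h7 : Disjoint ({p.1, p.2.1, p.2.2.1} : Finset ℕ) p.2.2.2 := by
          rw [disjoint_iff_inter_eq_empty]
          exact card_eq_zero.1 h6
        simp only [TT]
        rw [union_sdiff_left]
        exact (sdiff_eq_self_of_disjoint h7.symm).symm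
      have h8 := hR p hp.1 hp.2.1
      have h9 := hR p' hp'.1 hp'.2.1
      have e5 : p.2.2.2 = p'.2.2.2 := by rw [h8, h9, e4, e1, e2, e3]
      exact Prod.ext e1 (Prod.ext e2 (Prod.ext e3 e5))
  omega

lemma lower2 (n k : ℕ) :
    n.choose (k + 4) ≤
      #{S ∈ (range n).powerset | #(off S) = (k + 4) * (k + 3)} + 21 ^ (k + 4) * n ^ (k + 3) := by
  have h1 := card_not_gen n (k + 3)
  have h2 : #((range n).powersetCard (k + 3 + 1)) =
      #{B ∈ (range n).powersetCard (k + 3 + 1) | Gen B} +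
      #{B ∈ (range n).powersetCard (k + 3 + 1) | ¬ Gen B} :=
    (card_filter_add_card_filter_not _).symm
  rw [card_powersetCard, card_range] at h2
  have h3 : #{B ∈ (range n).powersetCard (k + 3 + 1) | Gen B} ≤
      #{S ∈ (range n).powerset | #(off S) = (k + 4) * (k + 3)} := by
    apply card_le_card
    intro B hB
    rw [mem_filter, mem_powersetCard] at hB
    rw [mem_filter, mem_powerset]
    refine ⟨hB.1.1, ?_⟩
    rw [sidon_card (gen_sidon hB.2), hB.1.2]
    rfl
  have e : k + 3 + 1 = k + 4 := rfl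
  rw [e] at h1 h2 h3
  omega

/-- Existence of a set with one arithmetic progression and no other coincidence. -/
lemma exists_set (k : ℕ) : ∃ S : Finset ℕ, #S = k + 3 ∧ #(off S) + 2 = (k + 3) * (k + 2) := by
  induction k with
  | zero => exact ⟨{0, 1, 2}, by decide, by decide⟩
  | succ k ih =>
    obtain ⟨S, hS, hoff⟩ := ih
    obtain ⟨M, hM⟩ : ∃ M, ∀ t ∈ S, t ≤ M := ⟨S.sup id, fun t ht => le_sup (f := id) ht⟩
    set x := 2 * M + 1 with hx
    have hxS : x ∉ S := fun h => by have := hM x h; omega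
    refine ⟨insert x S, by rw [card_insert_of_notMem hxS, hS], ?_⟩
    set X1 : Finset ℤ := S.image fun c : ℕ => (x : ℤ) - (c : ℤ) with hX1
    set X2 : Finset ℤ := S.image fun c : ℕ => (c : ℤ) - (x : ℤ) with hX2
    have cX1 : #X1 = #S := by
      rw [hX1]
      apply card_image_of_injOn
      intro a _ b _ h
      have h' : (x : ℤ) - a = x - b := h
      omega
    have cX2 : #X2 = #S := by
      rw [hX2]
      apply card_image_of_injOn
      intro a _ b _ h
      have h' : (a : ℤ) - x = b - x := h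
      omega
    have heq : off (insert x S) = off S ∪ (X1 ∪ X2) := by
      ext v
      rw [mem_union, mem_union, mem_off]
      constructor
      · rintro ⟨a, ha, b, hb, hab, e⟩
        rw [mem_insert] at ha hb
        rcases ha with rfl | ha
        · rcases hb with rfl | hb
          · exact absurd rfl hab
          · exact Or.inr (Or.inl (mem_image.2 ⟨b, hb, e⟩))
        · rcases hb with rfl | hb
          · exact Or.inr (Or.inr (mem_image.2 ⟨a, ha, e⟩))
          · exact Or.inl (mem_off.2 ⟨a, ha, b, hb, hab, e⟩)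
      · rintro (h | h | h)
        · obtain ⟨a, ha, b, hb, hab, e⟩ := mem_off.1 h
          exact ⟨a, mem_insert_of_mem ha, b, mem_insert_of_mem hb, hab, e⟩
        · obtain ⟨c, hc, e⟩ := mem_image.1 h
          exact ⟨x, mem_insert_self _ _, c, mem_insert_of_mem hc, fun h => hxS (h ▸ hc), e⟩
        · obtain ⟨c, hc, e⟩ := mem_image.1 h
          exact ⟨c, mem_insert_of_mem hc, x, mem_insert_self _ _, fun h => hxS (h ▸ hc), e⟩
    have d2 : Disjoint X1 X2 := by
      rw [disjoint_left]
      intro v h1 h2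
      obtain ⟨c, hc, e1⟩ := mem_image.1 h1
      obtain ⟨c', hc', e2⟩ := mem_image.1 h2
      have := hM c hc
      have := hM c' hc'
      omega
    have d1 : Disjoint (off S) (X1 ∪ X2) := by
      rw [disjoint_left]
      intro v h1 h2
      obtain ⟨p, hp, q, hq, _, e⟩ := mem_off.1 h1
      have := hM p hp
      have := hM q hq
      rcases mem_union.1 h2 with h2 | h2
      · obtain ⟨c, hc, e1⟩ := mem_image.1 h2
        have := hM c hc
        omega
      · obtain ⟨c, hc, e1⟩ := mem_image.1 h2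
        have := hM c hc
        omega
    rw [heq, card_union_of_disjoint d1, card_union_of_disjoint d2, cX1, cX2, hS]
    nlinarith

end Pool.Agent.R666.Divot
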