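import Pool.Agent.R666.Divot.Basic

/-!
# Counting sets that are not generic
-/

set_option autoImplicit false
open Finset
open scoped Classical

namespace Pool.Agent.R666.Divot

/-- A hyperplane contains at most `n ^ t` points of `[n] ^ (t+1)`. -/
lemma hyper (n t : ℕ) (c : Fin (t + 1) → ℤ) (hc : c ≠ 0) :
    #{f : Fin (t + 1) → Fin n | ∑ i, c i * ((f i : ℕ) : ℤ) = 0} ≤ n ^ t := by
  obtain ⟨i, hi⟩ : ∃ i, c i ≠ 0 := by
    by_contra h
    push Not at h
    exact hc (funext h)
  have h1 : #(univ : Finset (Fin t → Fin n)) = n ^ t := by simp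
  rw [← h1]
  apply card_le_card_of_injOn (fun f j => f (i.succAbove j)) (fun _ _ => mem_univ _)
  intro f hf g hg hfg
  simp only [coe_filter, mem_univ, true_and, Set.mem_ofPred_eq] at hf hg
  rw [Fin.sum_univ_succAbove _ i] at hf hg
  have h2 : ∀ j, f (i.succAbove j) = g (i.succAbove j) := fun j => congrFun hfg j
  simp only [h2] at hf
  have h3 : c i * ((f i : ℕ) : ℤ) = c i * ((g i : ℕ) : ℤ) := by linarith
  have h4 := mul_left_cancel₀ hi h3
  have h5 : f i = g i := by
    apply Fin.ext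
    exact_mod_cast h4
  funext j
  rcases Fin.eq_self_or_eq_succAbove i j with h | ⟨k, h⟩
  · rw [h]; exact h5
  · rw [h]; exact h2 k

/-- The functions satisfying some nontrivial relation with coefficients at most `10`. -/
lemma hyper_union (n t : ℕ) :
    #{f : Fin (t + 1) → Fin n | ∃ c : Fin (t + 1) → ℤ, c ≠ 0 ∧ (∀ i, |c i| ≤ 10) ∧
      ∑ i, c i * ((f i : ℕ) : ℤ) = 0} ≤ 21 ^ (t + 1) * n ^ t := by
  set C : Finset (Fin (t + 1) → ℤ) := (Fintype.piFinset fun _ => Icc (-10 : ℤ) 10).filter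
    fun c => c ≠ 0
  have h1 : #C ≤ 21 ^ (t + 1) := by
    refine (card_filter_le _ _).trans ?_
    rw [Fintype.card_piFinset]
    simp
  have h2 : ({f : Fin (t + 1) → Fin n | ∃ c : Fin (t + 1) → ℤ, c ≠ 0 ∧ (∀ i, |c i| ≤ 10) ∧
      ∑ i, c i * ((f i : ℕ) : ℤ) = 0} : Finset _) ⊆
      C.biUnion fun c => {f : Fin (t + 1) → Fin n | ∑ i, c i * ((f i : ℕ) : ℤ) = 0} := by
    intro f hf
    simp only [mem_filter, mem_univ, true_and] at hf
    obtain ⟨c, hc, hb, hs⟩ := hf
    rw [mem_biUnion]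
    refine ⟨c, ?_, ?_⟩
    · rw [mem_filter, Fintype.mem_piFinset]
      exact ⟨fun i => mem_Icc.2 (abs_le.1 (hb i)), hc⟩
    · simp only [mem_filter, mem_univ, true_and]
      exact hs
  refine (card_le_card h2).trans (card_biUnion_le.trans ?_)
  calc ∑ c ∈ C, #{f : Fin (t + 1) → Fin n | ∑ i, c i * ((f i : ℕ) : ℤ) = 0}
      ≤ ∑ c ∈ C, n ^ t := sum_le_sum fun c hc => hyper n t c (mem_filter.1 hc).2
    _ = #C * n ^ t := by rw [sum_const, smul_eq_mul]
    _ ≤ 21 ^ (t + 1) * n ^ t := Nat.mul_le_mul_right _ h1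

/-- The number of sets with `t + 1` elements which are not generic. -/
lemma card_not_gen (n t : ℕ) :
    #{B ∈ (range n).powersetCard (t + 1) | ¬ Gen B} ≤ 21 ^ (t + 1) * n ^ t := by
  refine le_trans ?_ (hyper_union n t)
  refine le_trans (card_le_card (t := image (fun f : Fin (t + 1) → Fin n =>
    image (fun i => (f i : ℕ)) univ) ({f : Fin (t + 1) → Fin n | ∃ c : Fin (t + 1) → ℤ, c ≠ 0 ∧
      (∀ i, |c i| ≤ 10) ∧ ∑ i, c i * ((f i : ℕ) : ℤ) = 0} : Finset _)) ?_) card_image_le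
  intro B hB
  rw [mem_filter, mem_powersetCard] at hB
  obtain ⟨⟨hBn, hBc⟩, hg⟩ := hB
  rw [mem_image]
  obtain ⟨f, hf⟩ : ∃ f : Fin (t + 1) → ℕ, f = fun i => B.orderEmbOfFin hBc i := ⟨_, rfl⟩
  have hfB : ∀ i, f i ∈ B := fun i => by rw [hf]; exact orderEmbOfFin_mem B hBc i
  have hfinj : Function.Injective f := by rw [hf]; exact (B.orderEmbOfFin hBc).injective
  have himg : image f univ = B := by
    rw [hf]
    exact image_orderEmbOfFin_univ B hBc
  refine ⟨fun i => ⟨f i, mem_range.1 (hBn (hfB i))⟩, ?_, ?_⟩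
  · rw [mem_filter]
    refine ⟨mem_univ _, ?_⟩
    unfold Gen at hg
    push Not at hg
    obtain ⟨c, hc, hs, b, hb, hcb⟩ := hg
    refine ⟨fun i => c (f i), ?_, fun i => hc _, ?_⟩
    · intro h0
      rw [← himg, mem_image] at hb
      obtain ⟨i, _, hi⟩ := hb
      exact hcb (hi ▸ congrFun h0 i)
    · simp only
      rw [← himg, sum_image (fun i _ j _ h => hfinj h)] at hs
      exact hs
  · simp only
    exact himg

/-- Degenerate sets: at most `t` elements, or `t + 1` elements and not generic. -/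
noncomputable def Deg (n t : ℕ) : Finset (Finset ℕ) :=
  {B ∈ (range n).powerset | #B ≤ t + 1 ∧ (#B = t + 1 → ¬ Gen B)}

lemma mem_Deg {n t : ℕ} {B : Finset ℕ} :
    B ∈ Deg n t ↔ B ⊆ range n ∧ #B ≤ t + 1 ∧ (#B = t + 1 → ¬ Gen B) := by
  unfold Deg
  rw [mem_filter, mem_powerset]

lemma card_Deg (n t : ℕ) (hn : 1 ≤ n) : #(Deg n t) ≤ (t + 1 + 21 ^ (t + 1)) * n ^ t := by
  have h1 : Deg n t ⊆ ((range (t + 1)).biUnion fun j => (range n).powersetCard j) ∪
      {B ∈ (range n).powersetCard (t + 1) | ¬ Gen B} := by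
    intro B hB
    rw [mem_Deg] at hB
    obtain ⟨h1, h2, h3⟩ := hB
    rw [mem_union]
    by_cases h : #B = t + 1
    · right
      rw [mem_filter, mem_powersetCard]
      exact ⟨⟨h1, h⟩, h3 h⟩
    · left
      rw [mem_biUnion]
      exact ⟨#B, mem_range.2 (by omega), mem_powersetCard.2 ⟨h1, rfl⟩⟩
  refine (card_le_card h1).trans ((card_union_le _ _).trans ?_)
  rw [add_mul]
  refine add_le_add ?_ (card_not_gen n t)
  refine card_biUnion_le.trans ?_
  calc ∑ j ∈ range (t + 1), #((range n).powersetCard j)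
      ≤ ∑ j ∈ range (t + 1), n ^ t := by
        refine sum_le_sum fun j hj => ?_
        rw [card_powersetCard, card_range]
        exact (Nat.choose_le_pow n j).trans (Nat.pow_le_pow_right hn (by
          have := mem_range.1 hj
          omega))
    _ = (t + 1) * n ^ t := by rw [sum_const, smul_eq_mul, card_range]

end Pool.Agent.R666.Divot
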