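import Pool.Agent.R666.Divot.Bounds

/-!
# The comparison of the three numbers
-/

set_option autoImplicit false
open Finset
open scoped Classical

namespace Pool.Agent.R666.Divot

lemma pow_le (n j : ℕ) (h : 2 * j ≤ n) : n ^ j ≤ 2 ^ j * (j.factorial * n.choose j) := by
  have h1 := Nat.pow_sub_le_descFactorial n j
  rw [Nat.descFactorial_eq_factorial_mul_choose] at h1
  calc n ^ j ≤ (2 * (n + 1 - j)) ^ j := Nat.pow_le_pow_left (by omega) j
    _ = 2 ^ j * (n + 1 - j) ^ j := mul_pow _ _ _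
    _ ≤ 2 ^ j * (j.factorial * n.choose j) := Nat.mul_le_mul_left _ h1

lemma main (k : ℕ) (hk : 686 ≤ k) : ∃ n₀, ∀ n ≥ n₀,
    0 < N n ((k + 4) * (k + 3) - 1) ∧
    N n ((k + 4) * (k + 3) - 1) < N n ((k + 4) * (k + 3) - 3) ∧
    N n ((k + 4) * (k + 3) - 1) < N n ((k + 4) * (k + 3) + 1) := by
  obtain ⟨S, hS, hoff⟩ := exists_set (k + 1)
  obtain ⟨M, hM⟩ : ∃ M, ∀ t ∈ S, t ≤ M := ⟨S.sup id, fun t ht => le_sup (f := id) ht⟩
  set c1 := 2 * (343 * (2 ^ k * k.factorial)) * (E1 k + E2 k) with hc1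
  set c2 := 2 ^ (k + 4) * (k + 4).factorial * (1 + E1 k + 21 ^ (k + 4)) with hc2
  have hbig : 1000 ≤ (k + 4) * (k + 3) := by nlinarith
  refine ⟨M + 1 + 35 + 2 * k + 8 + c1 + 1 + c2, fun n hn => ?_⟩
  have hN1 : N n ((k + 4) * (k + 3) - 1) =
      #{S ∈ (range n).powerset | #(off S) + 2 = (k + 4) * (k + 3)} := by
    rw [N_eq n (by omega)]
    congr 1
    apply filter_congr
    intro S _
    omega
  have hN2 : N n ((k + 4) * (k + 3) - 3) =
      #{S ∈ (range n).powerset | #(off S) + 4 = (k + 4) * (k + 3)} := by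
    rw [N_eq n (by omega)]
    congr 1
    apply filter_congr
    intro S _
    omega
  have hN3 : N n ((k + 4) * (k + 3) + 1) =
      #{S ∈ (range n).powerset | #(off S) = (k + 4) * (k + 3)} := by
    rw [N_eq n (by omega)]
    congr 1
    apply filter_congr
    intro S _
    omega
  rw [hN1, hN2, hN3]
  have hn1 : 1 ≤ n := by omega
  have up := upper n k (by omega) hn1
  refine ⟨?_, ?_, ?_⟩
  · rw [card_pos]
    refine ⟨S, mem_filter.2 ⟨mem_powerset.2 fun t ht => mem_range.2 ?_, hoff⟩⟩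
    have := hM t ht
    omega
  · have lo := lower n k (n / 6) (by omega) hn1
    set q := n / 6 with hq
    have hq7 : n ≤ 7 * q := by omega
    have hq3 : n ^ 3 ≤ 343 * q ^ 3 := by
      calc n ^ 3 ≤ (7 * q) ^ 3 := Nat.pow_le_pow_left hq7 3
        _ = 343 * q ^ 3 := by ring
    have h1 : n.choose (k + 1) * (k + 1) = n.choose k * (n - k) := Nat.choose_succ_right_eq n k
    have h2 : 686 * (n ^ 2 * n.choose (k + 1)) ≤ 343 * (q ^ 3 * n.choose k) := by
      calc 686 * (n ^ 2 * n.choose (k + 1)) ≤ (k + 1) * (n ^ 2 * n.choose (k + 1)) :=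
            Nat.mul_le_mul_right _ (by omega)
        _ = n ^ 2 * (n.choose (k + 1) * (k + 1)) := by ring
        _ = n ^ 2 * (n.choose k * (n - k)) := by rw [h1]
        _ ≤ n ^ 2 * (n.choose k * n) :=
            Nat.mul_le_mul_left _ (Nat.mul_le_mul_left _ (Nat.sub_le _ _))
        _ = n ^ 3 * n.choose k := by ring
        _ ≤ 343 * q ^ 3 * n.choose k := Nat.mul_le_mul_right _ hq3
        _ = 343 * (q ^ 3 * n.choose k) := by ring
    have h3 : n ^ (k + 3) ≤ 343 * (2 ^ k * k.factorial) * (q ^ 3 * n.choose k) := by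
      calc n ^ (k + 3) = n ^ 3 * n ^ k := by ring
        _ ≤ (343 * q ^ 3) * (2 ^ k * (k.factorial * n.choose k)) :=
            Nat.mul_le_mul hq3 (pow_le n k (by omega))
        _ = 343 * (2 ^ k * k.factorial) * (q ^ 3 * n.choose k) := by ring
    have h4 : c1 * n ^ (k + 2) < n ^ (k + 3) := by
      calc c1 * n ^ (k + 2) < n * n ^ (k + 2) :=
            Nat.mul_lt_mul_of_pos_right (by omega) (by positivity)
        _ = n ^ (k + 3) := by ring
    have h5 : 2 * ((E1 k + E2 k) * n ^ (k + 2)) < q ^ 3 * n.choose k := by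
      have h6 : 343 * (2 ^ k * k.factorial) * (2 * ((E1 k + E2 k) * n ^ (k + 2))) <
          343 * (2 ^ k * k.factorial) * (q ^ 3 * n.choose k) := by
        calc 343 * (2 ^ k * k.factorial) * (2 * ((E1 k + E2 k) * n ^ (k + 2)))
            = c1 * n ^ (k + 2) := by rw [hc1]; ring
          _ < n ^ (k + 3) := h4
          _ ≤ _ := h3
      exact lt_of_mul_lt_mul_left h6 (Nat.zero_le _)
    have h7 : (E1 k + E2 k) * n ^ (k + 2) = E1 k * n ^ (k + 2) + E2 k * n ^ (k + 2) := by ring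
    omega
  · have lo := lower2 n k
    have h1 : n ^ 2 * n.choose (k + 1) ≤ n ^ (k + 3) := by
      calc n ^ 2 * n.choose (k + 1) ≤ n ^ 2 * n ^ (k + 1) :=
            Nat.mul_le_mul_left _ (Nat.choose_le_pow n (k + 1))
        _ = n ^ (k + 3) := by ring
    have h2 : E1 k * n ^ (k + 2) ≤ E1 k * n ^ (k + 3) :=
      Nat.mul_le_mul_left _ (Nat.pow_le_pow_right hn1 (by omega))
    have h3 := pow_le n (k + 4) (by omega)
    have h4 : c2 * n ^ (k + 3) < n ^ (k + 4) := by
      calc c2 * n ^ (k + 3) < n * n ^ (k + 3) :=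
            Nat.mul_lt_mul_of_pos_right (by omega) (by positivity)
        _ = n ^ (k + 4) := by ring
    have h5 : (1 + E1 k + 21 ^ (k + 4)) * n ^ (k + 3) < n.choose (k + 4) := by
      have h6 : 2 ^ (k + 4) * (k + 4).factorial * ((1 + E1 k + 21 ^ (k + 4)) * n ^ (k + 3)) <
          2 ^ (k + 4) * (k + 4).factorial * n.choose (k + 4) := by
        calc 2 ^ (k + 4) * (k + 4).factorial * ((1 + E1 k + 21 ^ (k + 4)) * n ^ (k + 3))
            = c2 * n ^ (k + 3) := by rw [hc2]; ring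
          _ < n ^ (k + 4) := h4
          _ ≤ _ := h3
          _ = _ := by ring
      exact lt_of_mul_lt_mul_left h6 (Nat.zero_le _)
    have h7 : (1 + E1 k + 21 ^ (k + 4)) * n ^ (k + 3) =
        n ^ (k + 3) + E1 k * n ^ (k + 3) + 21 ^ (k + 4) * n ^ (k + 3) := by ring
    omega

end Pool.Agent.R666.Divot
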