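import Pool.Agent.R666.Divot.Count

/-!
# Sets with more than `s` elements and few differences
-/

set_option autoImplicit false
open Finset
open scoped Classical

namespace Pool.Agent.R666.Divot

/-- The numbers `b + c - d` and `(b + c) / 2`. -/
def FF (B : Finset ℕ) : Finset ℕ :=
  ((B ×ˢ B ×ˢ B).image fun p => p.1 + p.2.1 - p.2.2) ∪ ((B ×ˢ B).image fun p => (p.1 + p.2) / 2)

lemma card_FF (B : Finset ℕ) : #(FF B) ≤ #B ^ 3 + #B ^ 2 := by
  unfold FF
  refine (card_union_le _ _).trans (add_le_add ?_ ?_)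
  · refine card_image_le.trans ?_
    rw [card_product, card_product]
    exact le_of_eq (by ring)
  · refine card_image_le.trans ?_
    rw [card_product]
    exact le_of_eq (by ring)

lemma exists_max_sidon (S : Finset ℕ) :
    ∃ B ⊆ S, Sidon B ∧ ∀ x ∈ S, x ∉ B → ¬ Sidon (insert x B) := by
  have hne : (S.powerset.filter Sidon).Nonempty :=
    ⟨∅, mem_filter.2 ⟨empty_mem_powerset S, fun a ha => absurd ha (notMem_empty a)⟩⟩
  obtain ⟨B, hB, hmax⟩ := exists_max_image (S.powerset.filter Sidon) (fun B => #B) hne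
  rw [mem_filter, mem_powerset] at hB
  refine ⟨B, hB.1, hB.2, fun x hx hxB hs => ?_⟩
  have := hmax (insert x B) (mem_filter.2 ⟨mem_powerset.2 (insert_subset hx hB.1), hs⟩)
  rw [card_insert_of_notMem hxB] at this
  omega

lemma not_sidon_insert {B : Finset ℕ} {x : ℕ} (hB : Sidon B) (hx : x ∉ B)
    (h : ¬ Sidon (insert x B)) :
    (∃ b ∈ B, ∃ c ∈ B, ∃ d ∈ B, x + d = b + c) ∨ (∃ b ∈ B, ∃ c ∈ B, 2 * x = b + c) := by
  unfold Sidon at h
  push Not at h
  obtain ⟨a, ha, b, hb, c, hc, d, hd, e, hac, had⟩ := h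
  rw [mem_insert] at ha hb hc hd
  rcases ha with rfl | ha
  · have hc' : c ∈ B := hc.resolve_left (Ne.symm hac)
    have hd' : d ∈ B := hd.resolve_left (Ne.symm had)
    rcases hb with rfl | hb
    · right; exact ⟨c, hc', d, hd', by omega⟩
    · left; exact ⟨c, hc', d, hd', b, hb, e⟩
  · rcases hb with rfl | hb
    · have hc' : c ∈ B := hc.resolve_left (fun h => had (by omega))
      have hd' : d ∈ B := hd.resolve_left (fun h => hac (by omega))
      left; exact ⟨c, hc', d, hd', a, ha, by omega⟩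
    · rcases hc with rfl | hc
      · rcases hd with rfl | hd
        · right; exact ⟨a, ha, b, hb, by omega⟩
        · left; exact ⟨a, ha, b, hb, d, hd, by omega⟩
      · rcases hd with rfl | hd
        · left; exact ⟨a, ha, b, hb, c, hc, by omega⟩
        · rcases hB a ha b hb c hc d hd e with h | h
          · exact absurd h hac
          · exact absurd h had

/-- `x` is half of an integral combination of at most three elements of `B`. -/
def Rel (B : Finset ℕ) (x : ℕ) : Prop :=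
  ∃ (α : ℕ → ℤ) (A : Finset ℕ), #A ≤ 3 ∧ (∀ b, |α b| ≤ 4) ∧ (∀ b, b ∉ A → α b = 0) ∧
    ∑ b ∈ B, α b * (b : ℤ) = 2 * x

lemma rel_of {B : Finset ℕ} {x : ℕ}
    (h : (∃ b ∈ B, ∃ c ∈ B, ∃ d ∈ B, x + d = b + c) ∨ (∃ b ∈ B, ∃ c ∈ B, 2 * x = b + c)) :
    Rel B x := by
  rcases h with ⟨b, hb, c, hc, d, hd, e⟩ | ⟨b, hb, c, hc, e⟩
  · refine ⟨fun t => 2 * dl b t + 2 * dl c t - 2 * dl d t, {b, c, d}, card_le_three, ?_, ?_, ?_⟩
    · intro t
      rcases dl_cases b t with h1 | h1 <;> rcases dl_cases c t with h2 | h2 <;>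
        rcases dl_cases d t with h3 | h3 <;> (simp only [h1.1, h2.1, h3.1]; norm_num)
    · intro t ht
      simp only [mem_insert, mem_singleton, not_or] at ht
      simp only [dl_ne ht.1, dl_ne ht.2.1, dl_ne ht.2.2]
      norm_num
    · simp only [add_mul, sub_mul, sum_add_distrib, sum_sub_distrib, mul_assoc, ← mul_sum,
        sum_dl hb, sum_dl hc, sum_dl hd]
      omega
  · refine ⟨fun t => dl b t + dl c t, {b, c}, card_le_two.trans (by norm_num), ?_, ?_, ?_⟩
    · intro t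
      rcases dl_cases b t with h1 | h1 <;> rcases dl_cases c t with h2 | h2 <;>
        (simp only [h1.1, h2.1]; norm_num)
    · intro t ht
      simp only [mem_insert, mem_singleton, not_or] at ht
      simp only [dl_ne ht.1, dl_ne ht.2]
      norm_num
    · simp only [add_mul, sum_add_distrib, sum_dl hb, sum_dl hc]
      omega

lemma mem_FF_of {B : Finset ℕ} {x : ℕ}
    (h : (∃ b ∈ B, ∃ c ∈ B, ∃ d ∈ B, x + d = b + c) ∨ (∃ b ∈ B, ∃ c ∈ B, 2 * x = b + c)) :
    x ∈ FF B := by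
  unfold FF
  rw [mem_union, mem_image, mem_image]
  rcases h with ⟨b, hb, c, hc, d, hd, e⟩ | ⟨b, hb, c, hc, e⟩
  · left
    exact ⟨(b, c, d), by simp only [mem_product]; exact ⟨hb, hc, hd⟩, by simp only; omega⟩
  · right
    exact ⟨(b, c), by simp only [mem_product]; exact ⟨hb, hc⟩, by simp only; omega⟩

/-- (K1) -/
lemma k1 {B : Finset ℕ} (hB : Gen B) {x : ℕ} (hx : x ∉ B) {α : ℕ → ℤ} (ha : ∀ b, |α b| ≤ 4)
    (hs : ∑ b ∈ B, α b * (b : ℤ) = 2 * x) {b : ℕ} (hb : b ∈ B) (hb0 : α b = 0) {p q : ℕ}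
    (hp : p ∈ B) (hq : q ∈ B) (e : (x : ℤ) - b = p - q) : False := by
  have h1 := hB (fun t => α t - 2 * dl b t - 2 * dl p t + 2 * dl q t) (fun t => by
    have := abs_le.1 (ha t)
    rw [abs_le]
    rcases dl_cases b t with h1 | h1 <;> rcases dl_cases p t with h2 | h2 <;>
      rcases dl_cases q t with h3 | h3 <;> (simp only [h1.1, h2.1, h3.1]; omega)) (by
    simp only [add_mul, sub_mul, sum_add_distrib, sum_sub_distrib, mul_assoc, ← mul_sum,
        sum_dl hb, sum_dl hp, sum_dl hq, hs]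
    omega) b hb
  simp only [dl_self, hb0] at h1
  rcases dl_cases p b with h2 | h2 <;> rcases dl_cases q b with h3 | h3
  · omega
  · have : x = p := by
      have := h3.2
      omega
    exact hx (this ▸ hp)
  · omega
  · omega

/-- (K2) -/
lemma k2 {B : Finset ℕ} (hB : Gen B) {x : ℕ} {α : ℕ → ℤ} (ha : ∀ b, |α b| ≤ 4)
    (hs : ∑ b ∈ B, α b * (b : ℤ) = 2 * x) {b : ℕ} (hb : b ∈ B) (hb0 : α b = 0) {p : ℕ}
    (hp : p ∈ B) (e : (x : ℤ) - b = p - x) : False := by
  have h1 := hB (fun t => α t - dl b t - dl p t) (fun t => by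
    have := abs_le.1 (ha t)
    rw [abs_le]
    rcases dl_cases b t with h1 | h1 <;> rcases dl_cases p t with h2 | h2 <;>
      (simp only [h1.1, h2.1]; omega)) (by
    simp only [sub_mul, sum_sub_distrib, sum_dl hb, sum_dl hp, hs]
    omega) b hb
  simp only [dl_self, hb0] at h1
  rcases dl_cases p b with h2 | h2 <;> omega

/-- (K3) -/
lemma k3 {B : Finset ℕ} (hB : Gen B) {x y : ℕ} (hxy : x ≠ y) {α β : ℕ → ℤ}
    (ha : ∀ b, |α b| ≤ 4) (hs : ∑ b ∈ B, α b * (b : ℤ) = 2 * x)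
    (ha' : ∀ b, |β b| ≤ 4) (hs' : ∑ b ∈ B, β b * (b : ℤ) = 2 * y)
    {b : ℕ} (hb : b ∈ B) (hb0 : α b = 0) (hb1 : β b = 0) {p : ℕ}
    (hp : p ∈ B) (hp0 : α p = 0) (hp1 : β p = 0) (e : (x : ℤ) - b = y - p) : False := by
  have h1 := hB (fun t => α t - β t - 2 * dl b t + 2 * dl p t) (fun t => by
    have := abs_le.1 (ha t)
    have := abs_le.1 (ha' t)
    rw [abs_le]
    rcases dl_cases b t with h1 | h1
    · rcases dl_cases p t with h2 | h2
      · simp only [h1.1, h2.1]; omega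
      · have := h2.2
        subst this
        simp only [h1.1, h2.1, hp0, hp1]; omega
    · have := h1.2
      subst this
      rcases dl_cases p t with h2 | h2 <;> (simp only [h1.1, h2.1, hb0, hb1]; omega)) (by
    simp only [add_mul, sub_mul, sum_add_distrib, sum_sub_distrib, mul_assoc, ← mul_sum,
        sum_dl hb, sum_dl hp, hs, hs']
    omega) b hb
  simp only [dl_self, hb0, hb1] at h1
  rcases dl_cases p b with h2 | h2
  · omega
  · have := h2.2
    omega

/-- (K4) -/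
lemma k4 {B : Finset ℕ} (hB : Gen B) {x y : ℕ} {α β : ℕ → ℤ}
    (ha : ∀ b, |α b| ≤ 4) (hs : ∑ b ∈ B, α b * (b : ℤ) = 2 * x)
    (ha' : ∀ b, |β b| ≤ 4) (hs' : ∑ b ∈ B, β b * (b : ℤ) = 2 * y)
    {b : ℕ} (hb : b ∈ B) (hb0 : α b = 0) (hb1 : β b = 0) {p : ℕ}
    (hp : p ∈ B) (hp0 : α p = 0) (hp1 : β p = 0) (e : (x : ℤ) - b = p - y) : False := by
  have h1 := hB (fun t => α t + β t - 2 * dl b t - 2 * dl p t) (fun t => by
    have := abs_le.1 (ha t)
    have := abs_le.1 (ha' t)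
    rw [abs_le]
    rcases dl_cases b t with h1 | h1
    · rcases dl_cases p t with h2 | h2
      · simp only [h1.1, h2.1]; omega
      · have := h2.2
        subst this
        simp only [h1.1, h2.1, hp0, hp1]; omega
    · have := h1.2
      subst this
      rcases dl_cases p t with h2 | h2 <;> (simp only [h1.1, h2.1, hb0, hb1]; omega)) (by
    simp only [add_mul, sub_mul, sum_add_distrib, sum_sub_distrib, mul_assoc, ← mul_sum,
        sum_dl hb, sum_dl hp, hs, hs']
    omega) b hb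
  simp only [dl_self, hb0, hb1] at h1
  rcases dl_cases p b with h2 | h2 <;> omega

/-- Two more elements in relation to a generic set produce many new differences. -/
lemma gen_two {B S : Finset ℕ} (hB : Gen B) (hBS : B ⊆ S) {x y : ℕ} (hx : x ∈ S) (hy : y ∈ S)
    (hxB : x ∉ B) (hyB : y ∉ B) (hxy : x ≠ y) (rx : Rel B x) (ry : Rel B y) :
    #B * (#B - 1) + 4 * (#B - 6) ≤ #(off S) := by
  obtain ⟨α, A, hA, ha, haA, hs⟩ := rx
  obtain ⟨β, A', hA', hb, hbA, hs'⟩ := ry
  set C : Finset ℕ := B \ (A ∪ A') with hC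
  have hCc : #B - 6 ≤ #C := by
    have h1 := le_card_sdiff (A ∪ A') B
    rw [← hC] at h1
    have h2 := card_union_le A A'
    omega
  have hCm : ∀ c ∈ C, c ∈ B ∧ α c = 0 ∧ β c = 0 := by
    intro c hc
    simp only [hC, mem_sdiff, mem_union, not_or] at hc
    exact ⟨hc.1, haA c hc.2.1, hbA c hc.2.2⟩
  set X1 : Finset ℤ := C.image fun c : ℕ => (x : ℤ) - (c : ℤ) with hX1
  set X2 : Finset ℤ := C.image fun c : ℕ => (c : ℤ) - (x : ℤ) with hX2
  set Y1 : Finset ℤ := C.image fun c : ℕ => (y : ℤ) - (c : ℤ) with hY1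
  set Y2 : Finset ℤ := C.image fun c : ℕ => (c : ℤ) - (y : ℤ) with hY2
  have cX1 : #X1 = #C := by
    rw [hX1]
    apply card_image_of_injOn
    intro a _ b _ h
    have h' : (x : ℤ) - a = x - b := h
    omega
  have cX2 : #X2 = #C := by
    rw [hX2]
    apply card_image_of_injOn
    intro a _ b _ h
    have h' : (a : ℤ) - x = b - x := h
    omega
  have cY1 : #Y1 = #C := by
    rw [hY1]
    apply card_image_of_injOn
    intro a _ b _ h
    have h' : (y : ℤ) - a = y - b := h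
    omega
  have cY2 : #Y2 = #C := by
    rw [hY2]
    apply card_image_of_injOn
    intro a _ b _ h
    have h' : (a : ℤ) - y = b - y := h
    omega
  have hsub : off B ∪ (X1 ∪ (X2 ∪ (Y1 ∪ Y2))) ⊆ off S := by
    refine union_subset (off_mono hBS) (union_subset ?_ (union_subset ?_ (union_subset ?_ ?_)))
    · intro v hv
      obtain ⟨c, hc, rfl⟩ := mem_image.1 hv
      exact mem_off.2 ⟨x, hx, c, hBS (hCm c hc).1, fun h => hxB (h ▸ (hCm c hc).1), rfl⟩
    · intro v hv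
      obtain ⟨c, hc, rfl⟩ := mem_image.1 hv
      exact mem_off.2 ⟨c, hBS (hCm c hc).1, x, hx, fun h => hxB (h ▸ (hCm c hc).1), rfl⟩
    · intro v hv
      obtain ⟨c, hc, rfl⟩ := mem_image.1 hv
      exact mem_off.2 ⟨y, hy, c, hBS (hCm c hc).1, fun h => hyB (h ▸ (hCm c hc).1), rfl⟩
    · intro v hv
      obtain ⟨c, hc, rfl⟩ := mem_image.1 hv
      exact mem_off.2 ⟨c, hBS (hCm c hc).1, y, hy, fun h => hyB (h ▸ (hCm c hc).1), rfl⟩
  have d4 : Disjoint Y1 Y2 := by
    rw [disjoint_left]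
    intro v h1 h2
    obtain ⟨c, hc, rfl⟩ := mem_image.1 h1
    obtain ⟨c', hc', e⟩ := mem_image.1 h2
    exact k2 hB hb hs' (hCm c hc).1 (hCm c hc).2.2 (hCm c' hc').1 e.symm
  have d3 : Disjoint X2 (Y1 ∪ Y2) := by
    rw [disjoint_left]
    intro v h1 h2
    obtain ⟨c, hc, rfl⟩ := mem_image.1 h1
    rcases mem_union.1 h2 with h2 | h2
    · obtain ⟨c', hc', e⟩ := mem_image.1 h2
      exact k4 hB ha hs hb hs' (hCm c hc).1 (hCm c hc).2.1 (hCm c hc).2.2
        (hCm c' hc').1 (hCm c' hc').2.1 (hCm c' hc').2.2 (by omega)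
    · obtain ⟨c', hc', e⟩ := mem_image.1 h2
      exact k3 hB hxy ha hs hb hs' (hCm c hc).1 (hCm c hc).2.1 (hCm c hc).2.2
        (hCm c' hc').1 (hCm c' hc').2.1 (hCm c' hc').2.2 (by omega)
  have d2 : Disjoint X1 (X2 ∪ (Y1 ∪ Y2)) := by
    rw [disjoint_left]
    intro v h1 h2
    obtain ⟨c, hc, rfl⟩ := mem_image.1 h1
    rcases mem_union.1 h2 with h2 | h2
    · obtain ⟨c', hc', e⟩ := mem_image.1 h2
      exact k2 hB ha hs (hCm c hc).1 (hCm c hc).2.1 (hCm c' hc').1 e.symm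
    · rcases mem_union.1 h2 with h2 | h2
      · obtain ⟨c', hc', e⟩ := mem_image.1 h2
        exact k3 hB hxy ha hs hb hs' (hCm c hc).1 (hCm c hc).2.1 (hCm c hc).2.2
          (hCm c' hc').1 (hCm c' hc').2.1 (hCm c' hc').2.2 (by omega)
      · obtain ⟨c', hc', e⟩ := mem_image.1 h2
        exact k4 hB ha hs hb hs' (hCm c hc).1 (hCm c hc).2.1 (hCm c hc).2.2
          (hCm c' hc').1 (hCm c' hc').2.1 (hCm c' hc').2.2 (by omega)
  have d1 : Disjoint (off B) (X1 ∪ (X2 ∪ (Y1 ∪ Y2))) := by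
    rw [disjoint_left]
    intro v h1 h2
    obtain ⟨p, hp, q, hq, _, e⟩ := mem_off.1 h1
    simp only [mem_union] at h2
    rcases h2 with h2 | h2 | h2 | h2
    · obtain ⟨c, hc, e'⟩ := mem_image.1 h2
      exact k1 hB hxB ha hs (hCm c hc).1 (hCm c hc).2.1 hp hq (by omega)
    · obtain ⟨c, hc, e'⟩ := mem_image.1 h2
      exact k1 hB hxB ha hs (hCm c hc).1 (hCm c hc).2.1 hq hp (by omega)
    · obtain ⟨c, hc, e'⟩ := mem_image.1 h2
      exact k1 hB hyB hb hs' (hCm c hc).1 (hCm c hc).2.2 hp hq (by omega)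
    · obtain ⟨c, hc, e'⟩ := mem_image.1 h2
      exact k1 hB hyB hb hs' (hCm c hc).1 (hCm c hc).2.2 hq hp (by omega)
  have := card_le_card hsub
  rw [card_union_of_disjoint d1, card_union_of_disjoint d2, card_union_of_disjoint d3,
    card_union_of_disjoint d4, cX1, cX2, cY1, cY2, sidon_card (gen_sidon hB)] at this
  omega

/-- A set `S` with more than `k + 4` elements and `(k+4)(k+3) - 2` nonzero differences is
contained in `B ∪ FF B` for a degenerate set `B`. -/
lemma large {n k : ℕ} (hk : 10 ≤ k) {S : Finset ℕ} (hS : S ⊆ range n) (h1 : k + 5 ≤ #S)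
    (h2 : #(off S) + 2 = (k + 4) * (k + 3)) :
    ∃ B ∈ Deg n (k + 2), S ⊆ B ∪ FF B := by
  obtain ⟨B, hBS, hB, hmax⟩ := exists_max_sidon S
  have hrel : ∀ x ∈ S, x ∉ B → (∃ b ∈ B, ∃ c ∈ B, ∃ d ∈ B, x + d = b + c) ∨
      (∃ b ∈ B, ∃ c ∈ B, 2 * x = b + c) :=
    fun x hx hxB => not_sidon_insert hB hxB (hmax x hx hxB)
  have hBc : #B ≤ k + 3 := by
    by_contra hc
    push Not at hc
    have h3 := sidon_card hB
    have h4 := card_le_card (off_mono hBS)
    have h5 : (k + 4) * (k + 3) ≤ #B * (#B - 1) := Nat.mul_le_mul (by omega) (by omega)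
    omega
  refine ⟨B, mem_Deg.2 ⟨hBS.trans hS, hBc, fun hc hg => ?_⟩, ?_⟩
  · obtain ⟨x, hx, y, hy, hxy⟩ : ∃ x ∈ S \ B, ∃ y ∈ S \ B, x ≠ y := by
      rw [← one_lt_card]
      have := le_card_sdiff B S
      omega
    rw [mem_sdiff] at hx hy
    have h3 := gen_two hg hBS hx.1 hy.1 hx.2 hy.2 hxy (rel_of (hrel x hx.1 hx.2))
      (rel_of (hrel y hy.1 hy.2))
    rw [hc] at h3
    have h4 : (k + 2 + 1) * (k + 2 + 1 - 1) + 4 * (k + 2 + 1 - 6) ≥ (k + 4) * (k + 3) - 1 := by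
      obtain ⟨j, rfl⟩ : ∃ j, k = j + 10 := ⟨k - 10, by omega⟩
      have e1 : j + 10 + 2 + 1 - 1 = j + 12 := by omega
      have e2 : j + 10 + 2 + 1 - 6 = j + 7 := by omega
      rw [e1, e2]
      have : (j + 10 + 4) * (j + 10 + 3) ≤ (j + 10 + 2 + 1) * (j + 12) + 4 * (j + 7) + 1 := by
        nlinarith
      omega
    omega
  · intro x hx
    rw [mem_union]
    by_cases hxB : x ∈ B
    · exact Or.inl hxB
    · exact Or.inr (mem_FF_of (hrel x hx hxB))

end Pool.Agent.R666.Divot
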